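import Mathlib
import Pool.Agent.H82.NP.Targets

/-!
Modules EA1 and EA2 of the near-one theorem (`MP_ff17e6_an`): coefficients of exponentials.
-/

set_option autoImplicit false

open Metric Set Filter Topology Polynomial

namespace Pool.Agent.H33.NP

open Pool.Agent.H82.Hp (co Np Fext)
open Pool.Agent.H82.NP

lemma ea_zero (c : ℕ → ℂ) : ea c 0 = Complex.exp (c 0) := by
  rw [ea]

lemma ea_succ (c : ℕ → ℂ) (m : ℕ) : ea c (m + 1)
    = (∑ j ∈ Finset.range (m + 1), ((j : ℂ) + 1) * c (j + 1) * ea c (m - j)) / (m + 1) := by
  rw [ea]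
  congr 1
  exact Fin.sum_univ_eq_sum_range (fun j => ((j : ℂ) + 1) * c (j + 1) * ea c (m - j)) (m + 1)

lemma succ_ne (m : ℕ) : (m : ℂ) + 1 ≠ 0 := by exact_mod_cast Nat.succ_ne_zero m

lemma ea_succ' (c : ℕ → ℂ) (m : ℕ) : ((m : ℂ) + 1) * ea c (m + 1)
    = ∑ j ∈ Finset.range (m + 1), ((j : ℂ) + 1) * c (j + 1) * ea c (m - j) := by
  rw [ea_succ]
  have := succ_ne m
  field_simp

/-- uniqueness of the recursion -/
lemma ea_unique (c : ℕ → ℂ) (a : ℕ → ℂ) (h0 : a 0 = Complex.exp (c 0))
    (h1 : ∀ m : ℕ, ((m : ℂ) + 1) * a (m + 1)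
      = ∑ j ∈ Finset.range (m + 1), ((j : ℂ) + 1) * c (j + 1) * a (m - j)) (m : ℕ) :
    a m = ea c m := by
  induction m using Nat.strong_induction_on with
  | _ m ih =>
    cases m with
    | zero => rw [h0, ea_zero]
    | succ m =>
      have h2 := h1 m
      have h3 := ea_succ' c m
      have h4 : ∑ j ∈ Finset.range (m + 1), ((j : ℂ) + 1) * c (j + 1) * a (m - j)
          = ∑ j ∈ Finset.range (m + 1), ((j : ℂ) + 1) * c (j + 1) * ea c (m - j) := by
        apply Finset.sum_congr rfl
        intro j hj
        rw [ih (m - j) (by omega)]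
      rw [h4, ← h3] at h2
      exact mul_left_cancel₀ (succ_ne m) h2

theorem t_EA1 : T_EA1 := by
  intro f h hh hfh m
  refine ea_unique (fun k => co h k) (fun k => co f k) ?_ ?_ m
  · simp only [Pool.Agent.H82.Hp.co_zero]
    exact hfh 0 (mem_ball_self one_pos)
  · intro k
    exact Pool.Agent.H82.Hp.rec_exp hh hfh k

theorem t_EA3 : T_EA3 := by
  intro m
  induction m using Nat.strong_induction_on with
  | _ m ih =>
    cases m with
    | zero =>
      have : (fun c : ℕ → ℂ => ea c 0) = fun c => Complex.exp (c 0) := by
        funext c; rw [ea_zero]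
      rw [this]
      exact Complex.continuous_exp.comp (continuous_apply 0)
    | succ m =>
      have : (fun c : ℕ → ℂ => ea c (m + 1)) = fun c =>
          (∑ j ∈ Finset.range (m + 1), ((j : ℂ) + 1) * c (j + 1) * ea c (m - j)) / (m + 1) := by
        funext c; rw [ea_succ]
      rw [this]
      apply Continuous.div_const
      apply continuous_finsetSum
      intro j hj
      exact (continuous_const.mul (continuous_apply (j + 1))).mul (ih (m - j) (by omega))

theorem t_EA6 : T_EA6 := by
  intro c d m
  induction m using Nat.strong_induction_on with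
  | _ m ih =>
    intro h
    cases m with
    | zero => rw [ea_zero, ea_zero, h 0 le_rfl]
    | succ m =>
      rw [ea_succ, ea_succ]
      congr 1
      apply Finset.sum_congr rfl
      intro j hj
      rw [Finset.mem_range] at hj
      rw [h (j + 1) (by omega), ih (m - j) (by omega) (fun k hk => h k (by omega))]

theorem t_EA4 : T_EA4 := by
  intro c M hM hc m
  induction m using Nat.strong_induction_on with
  | _ m ih =>
    cases m with
    | zero =>
      rw [ea_zero, Complex.norm_exp, pow_zero, mul_one]
    | succ m =>
      have hE : 0 < Real.exp ((c 0).re) := Real.exp_pos _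
      have h1 : ((m : ℝ) + 1) * ‖ea c (m + 1)‖
          ≤ ∑ j ∈ Finset.range (m + 1),
            ((m : ℝ) + 1) * (M * (Real.exp ((c 0).re) * (1 + M) ^ (m - j))) := by
        have h2 : ‖((m : ℂ) + 1) * ea c (m + 1)‖ = ((m : ℝ) + 1) * ‖ea c (m + 1)‖ := by
          rw [norm_mul]
          congr 1
          have : ((m : ℂ) + 1) = (((m : ℝ) + 1 : ℝ) : ℂ) := by push_cast; rfl
          rw [this, Complex.norm_real, Real.norm_eq_abs, abs_of_nonneg (by positivity)]
        rw [← h2, ea_succ']
        refine (norm_sum_le _ _).trans (Finset.sum_le_sum ?_)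
        intro j hj
        rw [Finset.mem_range] at hj
        rw [norm_mul, norm_mul]
        have h3 : ‖((j : ℂ) + 1)‖ ≤ (m : ℝ) + 1 := by
          have : ((j : ℂ) + 1) = (((j : ℝ) + 1 : ℝ) : ℂ) := by push_cast; rfl
          rw [this, Complex.norm_real, Real.norm_eq_abs, abs_of_nonneg (by positivity)]
          have : (j : ℝ) ≤ m := by exact_mod_cast (by omega : j ≤ m)
          linarith
        have h4 := hc (j + 1) (by omega)
        have h5 := ih (m - j) (by omega)
        rw [mul_assoc]
        refine mul_le_mul h3 (mul_le_mul h4 h5 (norm_nonneg _) hM) (by positivity) (by positivity)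
      have h6 : ∑ j ∈ Finset.range (m + 1),
            ((m : ℝ) + 1) * (M * (Real.exp ((c 0).re) * (1 + M) ^ (m - j)))
          = ((m : ℝ) + 1) * (Real.exp ((c 0).re) * ((1 + M) ^ (m + 1) - 1)) := by
        rw [← Finset.mul_sum, ← Finset.mul_sum, ← Finset.mul_sum]
        have h7 := mul_geom_sum (1 + M) (m + 1)
        have h8 : M * ∑ i ∈ Finset.range (m + 1), (1 + M) ^ i = (1 + M) ^ (m + 1) - 1 := by
          rw [← h7]; ring
        have h9 : ∑ j ∈ Finset.range (m + 1), (1 + M) ^ (m - j)
            = ∑ j ∈ Finset.range (m + 1), (1 + M) ^ j := by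
          have := Finset.sum_range_reflect (fun j => (1 + M) ^ j) (m + 1)
          simpa using this
        rw [← h8]
        rw [h9]; ring
      rw [h6] at h1
      have h7 := le_of_mul_le_mul_left h1 (by positivity)
      refine h7.trans ?_
      apply mul_le_mul_of_nonneg_left _ hE.le
      linarith

theorem t_EA5 : T_EA5 := by
  intro c κ m
  have h := ea_unique (fun k => if k = 0 then c 0 + κ else c k)
    (fun m => Complex.exp κ * ea c m) ?_ ?_ m
  · exact h.symm
  · simp only [if_true, ea_zero]
    rw [Complex.exp_add]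
    ring
  · intro k
    have h1 := ea_succ' c k
    have h2 : ((k : ℂ) + 1) * (Complex.exp κ * ea c (k + 1))
        = Complex.exp κ * (((k : ℂ) + 1) * ea c (k + 1)) := by ring
    show ((k : ℂ) + 1) * (Complex.exp κ * ea c (k + 1)) = _
    rw [h2, h1, Finset.mul_sum]
    apply Finset.sum_congr rfl
    intro j _
    simp only [Nat.add_eq_zero_iff, one_ne_zero, and_false, if_false]
    ring

/-- the formal derivative recursion in power series form -/
lemma ea_deriv (c : ℕ → ℂ) : PowerSeries.derivative ℂ (PowerSeries.mk (ea c))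
    = PowerSeries.derivative ℂ (PowerSeries.mk c) * PowerSeries.mk (ea c) := by
  ext m
  rw [PowerSeries.coeff_derivative, PowerSeries.coeff_mul]
  rw [Finset.Nat.sum_antidiagonal_eq_sum_range_succ_mk]
  simp only [PowerSeries.coeff_derivative, PowerSeries.coeff_mk]
  have h1 := ea_succ' c m
  rw [mul_comm, h1]
  apply Finset.sum_congr rfl
  intro j _
  ring

theorem t_EA2 : T_EA2 := by
  intro c d m
  have h := ea_unique (fun k => c k + d k)
    (fun m => ∑ j ∈ Finset.range (m + 1), ea c j * ea d (m - j)) ?_ ?_ m
  · exact h.symm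
  · simp only [zero_add, Finset.range_one, Finset.sum_singleton, Nat.sub_zero, ea_zero]
    rw [Complex.exp_add]
  · intro k
    set P : PowerSeries ℂ := PowerSeries.mk (ea c) * PowerSeries.mk (ea d) with hP
    have hco : ∀ m, ∑ j ∈ Finset.range (m + 1), ea c j * ea d (m - j) = PowerSeries.coeff m P := by
      intro m
      rw [hP, PowerSeries.coeff_mul, Finset.Nat.sum_antidiagonal_eq_sum_range_succ_mk]
      simp only [PowerSeries.coeff_mk]
    have hd : PowerSeries.derivative ℂ P
        = PowerSeries.derivative ℂ (PowerSeries.mk (fun k => c k + d k)) * P := by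
      have e1 : PowerSeries.derivative ℂ P = PowerSeries.mk (ea c) *
          PowerSeries.derivative ℂ (PowerSeries.mk (ea d))
          + PowerSeries.derivative ℂ (PowerSeries.mk (ea c)) * PowerSeries.mk (ea d) := by
        rw [hP, Derivation.leibniz]
        simp only [smul_eq_mul]
        ring
      have e2 : PowerSeries.mk (fun k => c k + d k) = PowerSeries.mk c + PowerSeries.mk d := by
        ext m; simp
      rw [e1, ea_deriv, ea_deriv, e2, map_add, hP]
      ring
    have h3 := congrArg (PowerSeries.coeff k) hd
    clear_value P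
    rw [PowerSeries.coeff_derivative, PowerSeries.coeff_mul,
      Finset.Nat.sum_antidiagonal_eq_sum_range_succ_mk] at h3
    simp only [PowerSeries.coeff_derivative, PowerSeries.coeff_mk] at h3
    show ((k : ℂ) + 1) * ∑ j ∈ Finset.range (k + 1 + 1), ea c j * ea d (k + 1 - j)
      = ∑ j ∈ Finset.range (k + 1), ((j : ℂ) + 1) * (c (j + 1) + d (j + 1))
        * ∑ i ∈ Finset.range (k - j + 1), ea c i * ea d (k - j - i)
    rw [hco (k + 1), mul_comm, h3]
    apply Finset.sum_congr rfl
    intro j _
    rw [hco (k - j)]
    ring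

theorem t_EAD : T_EAD := by
  intro c d m
  -- differentiability and the recursion
  have key : ∀ m, HasDerivAt (fun t : ℝ => ea (fun k => c k + (t : ℂ) * d k) m)
      (∑ j ∈ Finset.range (m + 1), ea c (m - j) * d j) 0 := by
    -- ea (c + t d) m = sum ea c j * ea (t d) (m - j)
    have h1 : ∀ m, HasDerivAt (fun t : ℝ => ea (fun k => (t : ℂ) * d k) m) (d m) 0 ∧
        (ea (fun k => ((0 : ℝ) : ℂ) * d k) m = if m = 0 then 1 else 0) := by
      intro m
      induction m using Nat.strong_induction_on with
      | _ m ih =>
        cases m with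
        | zero =>
          constructor
          · have e : (fun t : ℝ => ea (fun k => (t : ℂ) * d k) 0)
                = fun t : ℝ => Complex.exp ((t : ℂ) * d 0) := by
              funext t; rw [ea_zero]
            rw [e]
            have h2 : HasDerivAt (fun t : ℝ => (t : ℂ) * d 0) (1 * d 0) 0 :=
              (Complex.ofRealCLM.hasDerivAt (x := (0 : ℝ))).mul_const (d 0)
            have h3 := h2.cexp
            simpa using h3
          · rw [ea_zero]; simp
        | succ m =>
          have hval : ea (fun k => ((0 : ℝ) : ℂ) * d k) (m + 1) = 0 := by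
            rw [ea_succ]
            have : ∑ j ∈ Finset.range (m + 1), ((j : ℂ) + 1) * (((0 : ℝ) : ℂ) * d (j + 1))
                * ea (fun k => ((0 : ℝ) : ℂ) * d k) (m - j) = 0 := by
              apply Finset.sum_eq_zero
              intro j _
              simp
            rw [this, zero_div]
          refine ⟨?_, by rw [hval, if_neg (Nat.succ_ne_zero m)]⟩
          have e : (fun t : ℝ => ea (fun k => (t : ℂ) * d k) (m + 1))
              = fun t : ℝ => (∑ j ∈ Finset.range (m + 1), ((j : ℂ) + 1) * ((t : ℂ) * d (j + 1))
                * ea (fun k => (t : ℂ) * d k) (m - j)) / (m + 1) := by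
            funext t; rw [ea_succ]
          rw [e]
          have h2 : ∀ j ∈ Finset.range (m + 1), HasDerivAt (fun t : ℝ =>
              ((j : ℂ) + 1) * ((t : ℂ) * d (j + 1)) * ea (fun k => (t : ℂ) * d k) (m - j))
              (if j = m then ((m : ℂ) + 1) * d (m + 1) else 0) 0 := by
            intro j hj
            rw [Finset.mem_range] at hj
            have h3 : HasDerivAt (fun t : ℝ => ((j : ℂ) + 1) * ((t : ℂ) * d (j + 1)))
                (((j : ℂ) + 1) * (1 * d (j + 1))) 0 :=
              ((Complex.ofRealCLM.hasDerivAt (x := (0 : ℝ))).mul_const (d (j + 1))).const_mul _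
            have h4 := h3.mul (ih (m - j) (by omega)).1
            have h5 := (ih (m - j) (by omega)).2
            refine h4.congr_deriv ?_
            rw [h5]
            by_cases hjm : j = m
            · subst hjm
              simp
            · rw [if_neg hjm, if_neg (by omega)]
              simp
          have h6 := (HasDerivAt.fun_sum h2).div_const ((m : ℂ) + 1)
          refine h6.congr_deriv ?_
          rw [Finset.sum_ite_eq' (Finset.range (m + 1)) m (fun _ => ((m : ℂ) + 1) * d (m + 1)),
            if_pos (Finset.mem_range.2 (Nat.lt_succ_self m))]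
          have := succ_ne m
          field_simp
    intro m
    have e : (fun t : ℝ => ea (fun k => c k + (t : ℂ) * d k) m)
        = fun t : ℝ => ∑ j ∈ Finset.range (m + 1), ea c j * ea (fun k => (t : ℂ) * d k) (m - j) := by
      funext t
      exact t_EA2 c (fun k => (t : ℂ) * d k) m
    rw [e]
    have h2 : ∀ j ∈ Finset.range (m + 1), HasDerivAt (fun t : ℝ =>
        ea c j * ea (fun k => (t : ℂ) * d k) (m - j)) (ea c j * d (m - j)) 0 :=
      fun j _ => (h1 (m - j)).1.const_mul _
    have h3 := HasDerivAt.fun_sum h2
    refine h3.congr_deriv ?_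
    have := Finset.sum_range_reflect (fun j => ea c (m - j) * d j) (m + 1)
    rw [← this]
    apply Finset.sum_congr rfl
    intro j hj
    rw [Finset.mem_range] at hj
    congr 2 <;> omega
  exact key m

end Pool.Agent.H33.NP
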