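import Mathlib
import Pool.Agent.H82.NP.Targets

/-!
Module GIBBS of the near-one theorem (`MP_ff17e6_an`).
-/

set_option autoImplicit false

open Metric Set Filter Topology Polynomial

namespace Pool.Agent.H33.NP

open Pool.Agent.H82.Hp (co Np Fext)
open Pool.Agent.H82.NP

/-- the circle average is monotone with finitely many exceptions -/
lemma av_mono_fin {f g : ℂ → ℝ} (hf : CircleIntegrable f 0 1) (hg : CircleIntegrable g 0 1)
    {S : Set ℂ} (hS : S.Countable) (h : ∀ z : ℂ, ‖z‖ = 1 → z ∉ S → f z ≤ g z) : av f ≤ av g := by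
  unfold av
  rw [Real.circleAverage_def, Real.circleAverage_def]
  apply smul_le_smul_of_nonneg_left _ (by positivity)
  apply intervalIntegral.integral_mono_ae (by positivity) hf hg
  have h1 : MeasureTheory.volume (circleMap 0 1 ⁻¹' S) = 0 :=
    (hS.preimage_circleMap 0 one_ne_zero).measure_zero _
  have h2 : ∀ᵐ θ : ℝ, θ ∉ circleMap 0 1 ⁻¹' S := MeasureTheory.measure_eq_zero_iff_ae_notMem.1 h1
  filter_upwards [h2] with θ hθ
  exact h _ (by simp) hθ

lemma circleInt_of_cont {f : ℂ → ℝ} (hf : ContinuousOn f (sphere 0 1)) : CircleIntegrable f 0 1 :=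
  hf.circleIntegrable zero_le_one

lemma cont_mul_log {T : ℂ → ℝ} (hT : ContinuousOn T (sphere 0 1)) :
    ContinuousOn (fun z => T z * Real.log (T z)) (sphere 0 1) :=
  Real.continuous_mul_log.comp_continuousOn hT

lemma av_smul (a : ℝ) (f : ℂ → ℝ) : av (fun z => a * f z) = a * av f := by
  unfold av
  exact Real.circleAverage_fun_smul (a := a) (f := f)

lemma av_add {f g : ℂ → ℝ} (hf : CircleIntegrable f 0 1) (hg : CircleIntegrable g 0 1) :
    av (fun z => f z + g z) = av f + av g := Real.circleAverage_fun_add hf hg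

lemma av_sub {f g : ℂ → ℝ} (hf : CircleIntegrable f 0 1) (hg : CircleIntegrable g 0 1) :
    av (fun z => f z - g z) = av f - av g := Real.circleAverage_fun_sub hf hg

lemma av_congr {f g : ℂ → ℝ} (h : ∀ z : ℂ, ‖z‖ = 1 → f z = g z) : av f = av g := by
  unfold av
  apply Real.circleAverage_congr_sphere
  intro z hz
  simp at hz
  exact h z hz

lemma gibbs_pt {T w W : ℝ} (hT : 0 ≤ T) (hw : 0 < w) (hW : 0 < W) :
    T * Real.log w ≤ T * Real.log T + Real.log W * T + W⁻¹ * w - T := by
  rcases hT.eq_or_lt with h0 | h0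
  · rw [← h0]
    simp only [zero_mul, mul_zero, sub_zero, zero_add]
    positivity
  · have h1 : Real.log (w / (T * W)) ≤ w / (T * W) - 1 := Real.log_le_sub_one_of_pos (by positivity)
    rw [Real.log_div hw.ne' (by positivity), Real.log_mul h0.ne' hW.ne'] at h1
    have h2 := mul_le_mul_of_nonneg_left h1 h0.le
    have h3 : T * (w / (T * W) - 1) = W⁻¹ * w - T := by
      field_simp
    rw [h3] at h2
    nlinarith

theorem t_GIBBS : T_GIBBS := by
  intro T w hT hw hT0 hw0 hfin hint hTav hwav
  have hTlog := cont_mul_log hT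
  have i1 := circleInt_of_cont hT
  have i2 := circleInt_of_cont hw
  have i3 := circleInt_of_cont hTlog
  set W := av w with hW
  have i4 : CircleIntegrable (fun z => Real.log W * T z) 0 1 :=
    circleInt_of_cont (continuousOn_const.mul hT)
  have i5 : CircleIntegrable (fun z => W⁻¹ * w z) 0 1 :=
    circleInt_of_cont (continuousOn_const.mul hw)
  have i34 : CircleIntegrable (fun z => T z * Real.log (T z) + Real.log W * T z) 0 1 := i3.add i4
  have i345 : CircleIntegrable (fun z => T z * Real.log (T z) + Real.log W * T z + W⁻¹ * w z) 0 1 :=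
    i34.add i5
  have iall : CircleIntegrable
      (fun z => T z * Real.log (T z) + Real.log W * T z + W⁻¹ * w z - T z) 0 1 := i345.sub i1
  have h1 : av (fun z => T z * Real.log (w z))
      ≤ av (fun z => T z * Real.log (T z) + Real.log W * T z + W⁻¹ * w z - T z) := by
    apply av_mono_fin hint iall hfin.countable
    intro z hz hzS
    apply gibbs_pt (hT0 z hz) _ hwav
    rcases (hw0 z hz).eq_or_lt with h | h
    · exact absurd ⟨hz, h.symm⟩ hzS
    · exact h
  refine h1.trans (le_of_eq ?_)
  rw [av_sub i345 i1, av_add i34 i5, av_add i3 i4, av_smul, av_smul, hTav, ← hW]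
  unfold ent
  have : W⁻¹ * W = 1 := inv_mul_cancel₀ hwav.ne'
  rw [this]
  ring

end Pool.Agent.H33.NP
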