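import Mathlib
import Pool.Agent.H82.NP.Targets
import Pool.Agent.H33.NP.Gibbs
import Pool.Agent.H62.NP.UNIQ

/-!
Module ENTC of the near-one theorem (`MP_ff17e6_an`): continuity of the entropy and the bounds for
nonnegative trigonometric polynomials with mean one.
-/

set_option autoImplicit false

open Metric Set Filter Topology Polynomial

namespace Pool.Agent.H33.NP

open Pool.Agent.H82.Hp (co Np Fext)
open Pool.Agent.H82.NP
open Pool.Agent.H62.NP (t_LAV TP_cont)

lemma TP_cont2 (n : ℕ) : Continuous (fun p : (ℕ → ℂ) × ℝ => TP n p.1 (circleMap 0 1 p.2)) := by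
  unfold TP
  fun_prop

lemma ent_cont (n : ℕ) : Continuous (fun τ : ℕ → ℂ => ent (TP n τ)) := by
  have h1 : Continuous (Function.uncurry (fun (τ : ℕ → ℂ) (θ : ℝ) =>
      TP n τ (circleMap 0 1 θ) * Real.log (TP n τ (circleMap 0 1 θ)))) :=
    Real.continuous_mul_log.comp (TP_cont2 n)
  have h2 := intervalIntegral.continuous_parametric_intervalIntegral_of_continuous'
    (μ := MeasureTheory.volume) h1 0 (2 * Real.pi)
  unfold ent av Real.circleAverage
  exact Continuous.const_smul h2 ((2 * Real.pi)⁻¹)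

theorem t_ENTC : T_ENTC := by
  intro n τ σ h
  exact ((ent_cont n).tendsto σ).comp (tendsto_pi_nhds.2 h)

lemma TP_int (n : ℕ) (τ : ℕ → ℂ) : CircleIntegrable (TP n τ) 0 1 :=
  circleInt_of_cont (TP_cont n τ).continuousOn

lemma TP_ent_int (n : ℕ) (τ : ℕ → ℂ) :
    CircleIntegrable (fun z => TP n τ z * Real.log (TP n τ z)) 0 1 :=
  circleInt_of_cont (cont_mul_log (TP_cont n τ).continuousOn)

lemma av_mono {f g : ℂ → ℝ} (hf : CircleIntegrable f 0 1) (hg : CircleIntegrable g 0 1)
    (h : ∀ z : ℂ, ‖z‖ = 1 → f z ≤ g z) : av f ≤ av g := by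
  unfold av
  apply Real.circleAverage_mono hf hg
  intro z hz
  exact h z (by simpa using hz)

lemma av_const (a : ℝ) : av (fun _ => a) = a := by
  unfold av
  exact Real.circleAverage_const a 0 1

lemma av_TP_one {n : ℕ} {τ : ℕ → ℂ} (h : Adm n τ) : av (TP n τ) = 1 := by
  have h1 := t_LAV n (fun k => if k = 0 then 1 else 0) τ (by rw [h.1]; simp)
  have h2 : L n (fun k => if k = 0 then 1 else 0) τ = 1 := by
    unfold L
    simp [h.1]
  rw [h2] at h1
  rw [← h1]
  apply av_congr
  intro z _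
  simp

/-- average against `1 + Re (w z^k)` -/
lemma av_TP_kernel {n : ℕ} {τ : ℕ → ℂ} (h : Adm n τ) {k : ℕ} (_ : 1 ≤ k) (hkn : k ≤ n) (w : ℂ) :
    av (fun z => TP n τ z * (1 + w * z ^ k).re) = 1 + (w * τ k).re := by
  have h1 := t_LAV n (fun j => (if j = 0 then 1 else 0) + (if j = k then w else 0)) τ
    (by rw [h.1]; simp)
  have h2 : L n (fun j => (if j = 0 then 1 else 0) + (if j = k then w else 0)) τ
      = 1 + (w * τ k).re := by
    unfold L
    have : ∑ j ∈ Finset.range (n + 1), ((if j = 0 then (1 : ℂ) else 0) + (if j = k then w else 0)) * τ j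
        = 1 + w * τ k := by
      simp only [add_mul, ite_mul, one_mul, zero_mul, Finset.sum_add_distrib, Finset.sum_ite_eq',
        Finset.mem_range]
      rw [if_pos (by omega), if_pos (by omega), h.1]
    rw [this]
    simp
  rw [← h2, ← h1]
  apply av_congr
  intro z _
  congr 2
  simp only [add_mul, ite_mul, one_mul, zero_mul, Finset.sum_add_distrib, Finset.sum_ite_eq',
        Finset.mem_range]
  rw [if_pos (by omega), if_pos (by omega)]
  simp

lemma adm_coeff {n : ℕ} {τ : ℕ → ℂ} (h : Adm n τ) {k : ℕ} (hk : 1 ≤ k) (hkn : k ≤ n) :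
    ‖τ k‖ ≤ 1 := by
  by_cases h0 : τ k = 0
  · rw [h0]; simp
  have hn : (‖τ k‖ : ℂ) ≠ 0 := by exact_mod_cast norm_ne_zero_iff.2 h0
  set w : ℂ := -((starRingEnd ℂ) (τ k) / ‖τ k‖) with hw
  have hw1 : ‖w‖ = 1 := by
    rw [hw, norm_neg, norm_div, RCLike.norm_conj, Complex.norm_real, norm_norm,
      div_self (norm_ne_zero_iff.2 h0)]
  have hw2 : w * τ k = -(‖τ k‖ : ℂ) := by
    rw [hw]
    have : (starRingEnd ℂ) (τ k) * τ k = (‖τ k‖ : ℂ) ^ 2 := by
      rw [mul_comm, Complex.mul_conj, Complex.normSq_eq_norm_sq]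
      push_cast; rfl
    field_simp
    linear_combination (-1 : ℂ) * this
  have h1 := av_TP_kernel h hk hkn w
  have h2 : 0 ≤ av (fun z => TP n τ z * (1 + w * z ^ k).re) := by
    apply Real.circleAverage_nonneg_of_nonneg
    intro z hz
    have hz1 : ‖z‖ = 1 := by simpa using hz
    apply mul_nonneg (h.2 z hz1)
    have h3 : ‖w * z ^ k‖ = 1 := by rw [norm_mul, norm_pow, hz1, hw1]; simp
    have h4 := Complex.abs_re_le_norm (w * z ^ k)
    rw [h3] at h4
    rw [Complex.add_re, Complex.one_re]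
    linarith [neg_le_of_abs_le h4]
  rw [h1, hw2] at h2
  simp at h2
  linarith

lemma sum_roots {N : ℕ} {x : ℂ} (h1 : x ^ N = 1) (h2 : x ≠ 1) :
    ∑ j ∈ Finset.range N, x ^ j = 0 := by
  have h3 := mul_geom_sum x N
  rw [h1, sub_self] at h3
  rcases mul_eq_zero.1 h3 with h4 | h4
  · exact absurd (sub_eq_zero.1 h4) h2
  · exact h4

lemma adm_le {n : ℕ} {τ : ℕ → ℂ} (h : Adm n τ) {z : ℂ} (hz : ‖z‖ = 1) : TP n τ z ≤ n + 1 := by
  set N := n + 1 with hN
  have hω : IsPrimitiveRoot (Complex.exp (2 * Real.pi * Complex.I / N)) N :=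
    Complex.isPrimitiveRoot_exp N (by omega)
  set ω := Complex.exp (2 * Real.pi * Complex.I / N) with hωd
  have hω1 : ‖ω‖ = 1 := hω.norm'_eq_one (by omega)
  have hsum : ∑ j ∈ Finset.range N, TP n τ (ω ^ j * z) = N := by
    unfold TP
    rw [Finset.sum_add_distrib, ← Finset.mul_sum, Finset.sum_comm]
    have h0 : ∀ k ∈ Finset.Icc 1 n, ∑ j ∈ Finset.range N,
        ((starRingEnd ℂ) (τ k) * (ω ^ j * z) ^ k).re = 0 := by
      intro k hk
      rw [Finset.mem_Icc] at hk
      rw [← Complex.re_sum]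
      have h1 : ∑ j ∈ Finset.range N, (starRingEnd ℂ) (τ k) * (ω ^ j * z) ^ k
          = (starRingEnd ℂ) (τ k) * z ^ k * ∑ j ∈ Finset.range N, (ω ^ k) ^ j := by
        rw [Finset.mul_sum]
        apply Finset.sum_congr rfl
        intro j _
        rw [mul_pow, ← pow_mul, ← pow_mul, mul_comm j k]
        ring
      rw [h1, sum_roots, mul_zero, Complex.zero_re]
      · rw [← pow_mul, mul_comm, pow_mul, hω.pow_eq_one, one_pow]
      · exact hω.pow_ne_one_of_pos_of_lt (by omega) (by omega)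
    rw [Finset.sum_eq_zero h0, h.1]
    simp
  rw [Finset.sum_range_succ'] at hsum
  simp only [pow_zero, one_mul] at hsum
  have h1 : 0 ≤ ∑ j ∈ Finset.range n, TP n τ (ω ^ (j + 1) * z) := by
    apply Finset.sum_nonneg
    intro j _
    apply h.2
    rw [norm_mul, norm_pow, hω1, hz]; simp
  have h2 : (N : ℝ) = n + 1 := by rw [hN]; push_cast; ring
  linarith

lemma adm_ent_nonneg {n : ℕ} {τ : ℕ → ℂ} (h : Adm n τ) : 0 ≤ ent (TP n τ) := by
  have h1 : av (fun z => TP n τ z - 1) ≤ ent (TP n τ) := by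
    apply av_mono
    · exact (TP_int n τ).sub (circleInt_of_cont continuousOn_const)
    · exact TP_ent_int n τ
    · intro z hz1
      rcases (h.2 z hz1).eq_or_lt with h0 | h0
      · simp only [← h0]
        norm_num
      · have h2 := Real.one_sub_inv_le_log_of_pos h0
        have h3 := mul_le_mul_of_nonneg_left h2 h0.le
        have h4 : TP n τ z * (1 - (TP n τ z)⁻¹) = TP n τ z - 1 := by field_simp
        rw [h4] at h3
        exact h3
  rw [av_sub (TP_int n τ) (circleInt_of_cont continuousOn_const), av_TP_one h, av_const, sub_self] at h1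
  exact h1

/-- entropy is at most the log of an upper bound -/
lemma adm_ent_le {n : ℕ} {τ : ℕ → ℂ} (h : Adm n τ) {M : ℝ} (hM : ∀ z : ℂ, ‖z‖ = 1 → TP n τ z ≤ M) :
    ent (TP n τ) ≤ Real.log M := by
  have h1 : ent (TP n τ) ≤ av (fun z => Real.log M * TP n τ z) := by
    apply av_mono
    · exact TP_ent_int n τ
    · exact circleInt_of_cont (continuousOn_const.mul (TP_cont n τ).continuousOn)
    · intro z hz1
      rcases (h.2 z hz1).eq_or_lt with h0 | h0
      · simp only [← h0]
        norm_num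
      · have h2 := Real.log_le_log h0 (hM z hz1)
        have h3 := mul_le_mul_of_nonneg_left h2 h0.le
        linarith
  rw [av_smul, av_TP_one h, mul_one] at h1
  exact h1

theorem t_ADM : T_ADM := by
  intro n τ h
  exact ⟨fun z hz => adm_le h hz, fun k h1 h2 => adm_coeff h h1 h2, adm_ent_nonneg h,
    adm_ent_le h (fun z hz => adm_le h hz)⟩

end Pool.Agent.H33.NP
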