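import Mathlib
import Pool.Agent.H82.NP.Targets
import Pool.Agent.H33.NP.Entc
import Pool.Agent.H33.NP.EA1

/-!
Module CC of the near-one theorem (`MP_ff17e6_an`): closedness of the relaxed class, bounds, the
candidate.
-/

set_option autoImplicit false

open Metric Set Filter Topology Polynomial

namespace Pool.Agent.H33.NP

open Pool.Agent.H82.Hp (co Np Fext hF mem_Np_hF Fext_eq hF_diff hF_coeffs hF_re_zero etaF co_zero)
open Pool.Agent.H82.NP
open Pool.Agent.H62.NP (t_LAV TP_cont)

theorem t_CCCL : T_CCCL := by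
  intro n s S c d hc hs hd τ hτ
  have h1 : Tendsto (fun k => L n (c k) τ) atTop (𝓝 (L n d τ)) := by
    unfold L
    apply (Complex.continuous_re.tendsto _).comp
    apply tendsto_finsetSum
    intro j _
    exact (hd j).mul_const _
  have h2 : Tendsto (fun k => s k * ent (TP n τ)) atTop (𝓝 (S * ent (TP n τ))) := hs.mul_const _
  exact le_of_tendsto_of_tendsto' h1 h2 (fun k => hc k τ hτ)

lemma L_delta (n : ℕ) (c : ℕ → ℂ) : L n c (fun k => if k = 0 then 1 else 0) = (c 0).re := by
  unfold L
  simp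

lemma adm_one (n : ℕ) : Adm n (fun k => if k = 0 then 1 else 0) := by
  refine ⟨by simp, fun z _ => ?_⟩
  unfold TP
  have : ∑ k ∈ Finset.Icc 1 n, ((starRingEnd ℂ) (if k = 0 then (1 : ℂ) else 0) * z ^ k).re = 0 := by
    apply Finset.sum_eq_zero
    intro k hk
    rw [Finset.mem_Icc] at hk
    rw [if_neg (by omega)]
    simp
  rw [this]
  simp

lemma TP_two {n k : ℕ} (hk : 1 ≤ k) (hkn : k ≤ n) (w z : ℂ) :
    TP n (fun j => if j = 0 then 1 else if j = k then w / 2 else 0) z
      = 1 + ((starRingEnd ℂ) w * z ^ k).re := by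
  unfold TP
  have : ∑ j ∈ Finset.Icc 1 n, ((starRingEnd ℂ) (if j = 0 then (1 : ℂ) else
      if j = k then w / 2 else 0) * z ^ j).re = ((starRingEnd ℂ) w * z ^ k).re / 2 := by
    rw [Finset.sum_eq_single k]
    · rw [if_neg (by omega), if_pos rfl, map_div₀, map_ofNat]
      have : (starRingEnd ℂ) w / 2 * z ^ k = ((1 / 2 : ℝ) : ℂ) * ((starRingEnd ℂ) w * z ^ k) := by
        push_cast; ring
      rw [this, Complex.re_ofReal_mul]
      ring
    · intro j hj hjk
      rw [Finset.mem_Icc] at hj
      rw [if_neg (by omega), if_neg hjk]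
      simp
    · intro h
      exact absurd (Finset.mem_Icc.2 ⟨hk, hkn⟩) h
  rw [this]
  simp
  ring

lemma L_two {n k : ℕ} (hk : 1 ≤ k) (hkn : k ≤ n) (w : ℂ) (c : ℕ → ℂ) :
    L n c (fun j => if j = 0 then 1 else if j = k then w / 2 else 0)
      = (c 0).re + (c k * w).re / 2 := by
  unfold L
  have : ∑ j ∈ Finset.range (n + 1), c j * (if j = 0 then 1 else if j = k then w / 2 else 0)
      = c 0 + c k * w / 2 := by
    rw [Finset.sum_range_succ']
    have h1 : ∑ j ∈ Finset.range n, c (j + 1) * (if j + 1 = 0 then (1 : ℂ) else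
        if j + 1 = k then w / 2 else 0) = c k * w / 2 := by
      rw [Finset.sum_eq_single (k - 1)]
      · have : k - 1 + 1 = k := by omega
        rw [if_neg (by omega), this, if_pos rfl]
        ring
      · intro j _ hj
        rw [if_neg (by omega), if_neg (by omega), mul_zero]
      · intro h
        exact absurd (Finset.mem_range.2 (by omega)) h
    rw [h1]
    simp
    ring
  rw [this, Complex.add_re]
  congr 1
  have : c k * w / 2 = ((1 / 2 : ℝ) : ℂ) * (c k * w) := by push_cast; ring
  rw [this, Complex.re_ofReal_mul]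
  ring

lemma TP_two_bds {n k : ℕ} (hk : 1 ≤ k) (hkn : k ≤ n) {w z : ℂ} (hw : ‖w‖ = 1) (hz : ‖z‖ = 1) :
    0 ≤ TP n (fun j => if j = 0 then 1 else if j = k then w / 2 else 0) z ∧
    TP n (fun j => if j = 0 then 1 else if j = k then w / 2 else 0) z ≤ 2 := by
  rw [TP_two hk hkn]
  have h3 : ‖(starRingEnd ℂ) w * z ^ k‖ = 1 := by
    rw [norm_mul, norm_pow, hz, RCLike.norm_conj, hw]; simp
  have h4 := Complex.abs_re_le_norm ((starRingEnd ℂ) w * z ^ k)
  rw [h3, abs_le] at h4
  constructor <;> linarith [h4.1, h4.2]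

theorem t_CCBD : T_CCBD := by
  intro n s c hs hs1 hc
  refine ⟨?_, ?_⟩
  · have h1 := hc _ (adm_one n)
    rw [L_delta] at h1
    have h2 : ent (TP n (fun k => if k = 0 then 1 else 0)) ≤ Real.log 1 := by
      apply adm_ent_le (adm_one n)
      intro z _
      unfold TP
      have : ∑ k ∈ Finset.Icc 1 n, ((starRingEnd ℂ) (if k = 0 then (1 : ℂ) else 0) * z ^ k).re
          = 0 := by
        apply Finset.sum_eq_zero
        intro k hk
        rw [Finset.mem_Icc] at hk
        rw [if_neg (by omega)]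
        simp
      rw [this]
      simp
    rw [Real.log_one] at h2
    have h3 := mul_le_mul_of_nonneg_left h2 hs.le
    linarith
  · intro k hk hkn
    have hcst : 0 ≤ Real.log 2 := Real.log_nonneg (by norm_num)
    have key : ∀ w : ℂ, ‖w‖ = 1 → (c 0).re + (c k * w).re / 2 ≤ Real.log 2 := by
      intro w hw
      have hadm : Adm n (fun j => if j = 0 then 1 else if j = k then w / 2 else 0) :=
        ⟨by simp, fun z hz => (TP_two_bds hk hkn hw hz).1⟩
      have h1 := hc _ hadm
      rw [L_two hk hkn] at h1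
      have h2 := adm_ent_le hadm (M := 2) (fun z hz => (TP_two_bds hk hkn hw hz).2)
      have h3 := mul_le_mul_of_nonneg_left h2 hs.le
      have h4 := mul_le_mul_of_nonneg_right hs1 hcst
      linarith
    by_cases h0 : c k = 0
    · have h1 := key 1 (by simp)
      rw [h0] at h1 ⊢
      simp at h1 ⊢
      linarith
    · have hn : (‖c k‖ : ℂ) ≠ 0 := by exact_mod_cast norm_ne_zero_iff.2 h0
      have h1 := key ((starRingEnd ℂ) (c k) / ‖c k‖) (by
        rw [norm_div, RCLike.norm_conj, Complex.norm_real, norm_norm,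
          div_self (norm_ne_zero_iff.2 h0)])
      have h2 : c k * ((starRingEnd ℂ) (c k) / ‖c k‖) = (‖c k‖ : ℂ) := by
        rw [← mul_div_assoc, Complex.mul_conj, Complex.normSq_eq_norm_sq]
        push_cast
        field_simp
      rw [h2, Complex.ofReal_re] at h1
      linarith

/-! ### the candidate -/

/-- the explicit candidate -/
noncomputable def cand (n : ℕ) (s : ℝ) (k : ℕ) : ℂ :=
  if k = 0 then ((-(s * Real.log 2) - (1 - s) : ℝ) : ℂ) else if k = n then 2 else 0

lemma L_congr {n : ℕ} {c d τ : ℕ → ℂ} (h : ∀ k, k ≤ n → c k = d k) : L n c τ = L n d τ := by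
  unfold L
  congr 1
  apply Finset.sum_congr rfl
  intro k hk
  rw [Finset.mem_range] at hk
  rw [h k (by omega)]

lemma cand_mem_lt (hNP : T_NPCC) {n : ℕ} (hn : 1 ≤ n) {s : ℝ} (h0 : 0 < s) (h1 : s < 1) :
    cand n s ∈ CC n s := by
  have hp : 1 < 1 / s := by rw [lt_div_iff₀ h0]; linarith
  have hone : ‖(1 : ℂ)‖ = 1 := norm_one
  have h2 := hNP (1 / s) hp.le _ (mem_Np_hF hp hn hone hone) (hF (1 / s) n 1 1)
    (hF_diff (1 / s) hn 1 hone) (fun z hz => Fext_eq hn hone hone hz) n
  rw [one_div_one_div] at h2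
  intro τ hτ
  rw [← L_congr (c := fun k => co (hF (1 / s) n 1 1) k)]
  · exact h2 τ hτ
  · intro k hk
    obtain ⟨h3, h4⟩ := hF_coeffs (1 / s) hn 1 hone
    unfold cand
    by_cases hk0 : k = 0
    · rw [if_pos hk0, hk0, co_zero]
      unfold hF etaF
      rw [zero_pow (by omega)]
      simp only [mul_zero, add_zero, Complex.log_one, zero_sub, zero_add, div_one, one_div_one_div]
      push_cast
      rw [div_div_eq_mul_div, div_one]
      ring
    · by_cases hkn : k = n
      · rw [if_neg hk0, if_pos hkn, hkn, h4, mul_one]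
      · rw [if_neg hk0, if_neg hkn]
        exact h3 k (by omega) (by omega)

lemma cand_mem (hNP : T_NPCC) {n : ℕ} (hn : 1 ≤ n) {s : ℝ} (h0 : 0 < s) (h1 : s ≤ 1) :
    cand n s ∈ CC n s := by
  rcases h1.lt_or_eq with h2 | h2
  · exact cand_mem_lt hNP hn h0 h2
  · subst h2
    have hlim : Tendsto (fun k : ℕ => 1 - 1 / ((k : ℝ) + 2)) atTop (𝓝 1) := by
      have h3 : Tendsto (fun k : ℕ => 1 / ((k : ℝ) + 2)) atTop (𝓝 0) := by
        apply Tendsto.div_atTop tendsto_const_nhds
        exact tendsto_atTop_add_const_right _ _ tendsto_natCast_atTop_atTop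
      simpa using h3.const_sub 1
    apply t_CCCL n (fun k : ℕ => 1 - 1 / ((k : ℝ) + 2)) 1 (fun k => cand n (1 - 1 / ((k : ℝ) + 2)))
      (cand n 1) _ hlim
    · intro j
      unfold cand
      by_cases hj : j = 0
      · simp only [hj, if_true]
        apply (Complex.continuous_ofReal.tendsto _).comp
        exact ((hlim.mul_const _).neg).sub (hlim.const_sub 1)
      · simp only [hj, if_false]
        exact tendsto_const_nhds
    · intro k
      have hk : (0 : ℝ) < (k : ℝ) + 2 := by positivity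
      apply cand_mem_lt hNP hn
      · rw [sub_pos, div_lt_one hk]
        have : (0 : ℝ) ≤ k := by positivity
        linarith
      · have : 0 < 1 / ((k : ℝ) + 2) := by positivity
        linarith

lemma ea_sparse {c : ℕ → ℂ} {n : ℕ} (hn : 1 ≤ n) (hc : ∀ k, 1 ≤ k → k < n → c k = 0) :
    ea c n = c n * ea c 0 := by
  obtain ⟨m, rfl⟩ := Nat.exists_eq_succ_of_ne_zero (by omega : n ≠ 0)
  rw [Nat.succ_eq_add_one, ea_succ, Finset.sum_range_succ]
  have h1 : ∑ j ∈ Finset.range m, ((j : ℂ) + 1) * c (j + 1) * ea c (m - j) = 0 := by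
    apply Finset.sum_eq_zero
    intro j hj
    rw [Finset.mem_range] at hj
    rw [hc (j + 1) (by omega) (by omega)]
    ring
  have h2 := succ_ne m
  rw [h1, Nat.sub_self]
  field_simp
  ring

theorem t_CAND (hNP : T_NPCC) : T_CAND := by
  intro n s hn h0 h1
  refine ⟨cand n s, cand_mem hNP hn h0 h1, ?_⟩
  rw [ea_sparse hn]
  · unfold cand
    rw [if_neg (by omega), if_pos rfl, norm_mul, ea_zero, if_pos rfl, Complex.norm_exp,
      Complex.ofReal_re]
    have h2 : ‖(2 : ℂ)‖ = Real.exp (Real.log 2) := by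
      rw [Real.exp_log (by norm_num)]; norm_num
    rw [h2, ← Real.exp_add]
    apply le_of_eq
    congr 1
    unfold eps0
    ring
  · intro k hk hkn
    unfold cand
    rw [if_neg (by omega), if_neg (by omega)]

end Pool.Agent.H33.NP
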