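import Mathlib
import Pool.Agent.H82.NP.Targets
import Pool.Agent.H82.NP.Trig
import Pool.Agent.H33.NP.Entc

/-!
Module EN of the near-one theorem (`MP_ff17e6_an`): the entropy inequality, all cases, by
perturbation of the roots.
-/

set_option autoImplicit false

open Metric Set Filter Topology Polynomial

namespace Pool.Agent.H33.NP

open Pool.Agent.H82.Hp (co Np Fext)
open Pool.Agent.H82.NP

/-- the rotated root -/
noncomputable def rot (ζ : ℂ) (a : ℝ) (t : ℝ) : ℂ := ζ * Complex.exp ((t * a : ℝ) * Complex.I)

lemma rot_norm (ζ : ℂ) (a t : ℝ) : ‖rot ζ a t‖ = ‖ζ‖ := by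
  unfold rot
  rw [norm_mul, Complex.norm_exp_ofReal_mul_I, mul_one]

lemma rot_zero (ζ : ℂ) (a : ℝ) : rot ζ a 0 = ζ := by
  unfold rot
  simp

lemma rot_deriv (ζ : ℂ) (a : ℝ) : HasDerivAt (rot ζ a) (ζ * (a * Complex.I)) 0 := by
  have h1 : HasDerivAt (fun t : ℝ => ((t * a : ℝ) : ℂ)) (a : ℂ) 0 := by
    have h2 : HasDerivAt (fun t : ℝ => t * a) a 0 := by
      simpa using (hasDerivAt_id (0 : ℝ)).mul_const a
    exact h2.ofReal_comp
  have h3 := ((h1.mul_const Complex.I).cexp).const_mul ζ
  have h4 : ζ * (Complex.exp (((0 * a : ℝ) : ℂ) * Complex.I) * ((a : ℂ) * Complex.I))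
      = ζ * (a * Complex.I) := by simp
  rw [h4] at h3
  exact h3

lemma rot_cont (ζ : ℂ) (a : ℝ) : Continuous (rot ζ a) := by
  unfold rot
  fun_prop

/-- two rotated roots are different for small nonzero times -/
lemma rot_ne {ζ η : ℂ} (hη : η ≠ 0) {a b : ℝ} (hab : a ≠ b) :
    ∀ᶠ t in 𝓝[≠] (0 : ℝ), rot ζ a t ≠ rot η b t := by
  by_cases h : ζ = η
  · have h1 : HasDerivAt (fun t => rot ζ a t - rot η b t)
        (ζ * (a * Complex.I) - η * (b * Complex.I)) 0 := (rot_deriv ζ a).sub (rot_deriv η b)
    have h2 : ζ * (a * Complex.I) - η * (b * Complex.I) ≠ 0 := by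
      rw [h]
      have : η * (a * Complex.I) - η * (b * Complex.I) = η * ((a - b : ℝ) * Complex.I) := by
        push_cast; ring
      rw [this]
      apply mul_ne_zero hη
      apply mul_ne_zero _ Complex.I_ne_zero
      exact_mod_cast sub_ne_zero.2 hab
    have h3 := h1.eventually_ne (c := 0) h2
    filter_upwards [h3] with t ht h4
    exact ht (sub_eq_zero.2 h4)
  · have h1 : ContinuousAt (fun t => rot ζ a t - rot η b t) 0 :=
      ((rot_cont ζ a).sub (rot_cont η b)).continuousAt
    have h2 : (fun t => rot ζ a t - rot η b t) 0 ≠ 0 := by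
      simp only [rot_zero]
      exact sub_ne_zero.2 h
    have h3 := h1.eventually_ne h2
    apply mem_nhdsWithin_of_mem_nhds
    filter_upwards [h3] with t ht h4
    exact ht (sub_eq_zero.2 h4)

/-- continuity of the coefficients of a product -/
lemma prod_coeff_cont {ι : Type*} (s : Finset ι) (f : ι → ℝ → ℂ) (hf : ∀ i, Continuous (f i)) :
    ∀ j, Continuous (fun t => (∏ i ∈ s, (X - C (f i t))).coeff j) := by
  classical
  induction s using Finset.induction_on with
  | empty =>
    intro j
    simp only [Finset.prod_empty]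
    exact continuous_const
  | insert a s ha ih =>
    intro j
    simp only [Finset.prod_insert ha, coeff_mul]
    apply continuous_finsetSum
    intro x _
    apply Continuous.mul _ (ih x.2)
    simp only [coeff_sub, coeff_C, coeff_X]
    split_ifs
    · exact continuous_const.sub (hf a)
    · exact continuous_const.sub continuous_const
    · exact continuous_const.sub (hf a)
    · exact continuous_const.sub continuous_const

lemma simple_prod {m : ℕ} {a : ℂ} (ha : a ≠ 0) {η : Fin m → ℂ} (h1 : ∀ i, ‖η i‖ = 1)
    (hinj : Function.Injective η) : Simple (C a * ∏ i, (X - C (η i))) := by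
  intro z hz
  have hsep : (∏ i, (X - C (η i))).Separable := separable_prod_X_sub_C_iff.2 hinj
  have hz1 : (∏ i, (X - C (η i))).eval z = 0 := by
    rw [eval_mul, eval_C] at hz
    exact (mul_eq_zero.1 hz).resolve_left ha
  constructor
  · rw [eval_prod, Finset.prod_eq_zero_iff] at hz1
    obtain ⟨i, _, hi⟩ := hz1
    rw [eval_sub, eval_X, eval_C, sub_eq_zero] at hi
    rw [hi]
    exact h1 i
  · rw [derivative_C_mul, eval_mul, eval_C]
    apply mul_ne_zero ha
    have h2 := hsep.aeval_derivative_ne_zero (x := z) (by rw [coe_aeval_eq_eval]; exact hz1)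
    rw [coe_aeval_eq_eval] at h2
    exact h2

lemma nrm_C_mul (n : ℕ) (c : ℂ) (G : ℂ[X]) : nrm n (C c * G) = ‖c‖ ^ 2 * nrm n G := by
  unfold nrm
  rw [Finset.mul_sum]
  apply Finset.sum_congr rfl
  intro k _
  rw [coeff_C_mul, norm_mul, mul_pow]

theorem t_EN (hEN1 : T_EN1) : T_EN := by
  intro n G hn hdeg hroots hnrm
  have hG0 : G ≠ 0 := by
    intro h
    rw [h, natDegree_zero] at hdeg
    omega
  set a := G.leadingCoeff with ha
  have ha0 : a ≠ 0 := leadingCoeff_ne_zero.2 hG0
  have hsp := (IsAlgClosed.splits G)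
  set l := G.roots.toList with hl
  have hlen : l.length = n := by
    rw [hl, Multiset.length_toList, ← hdeg]
    exact hsp.natDegree_eq_card_roots.symm
  have hprod : G = C a * ∏ i : Fin l.length, (X - C (l[i.1])) := by
    rw [Fin.prod_univ_fun_getElem l (fun x => X - C x)]
    have h1 : (l.map (fun x => X - C x)).prod = (G.roots.map (fun x => X - C x)).prod := by
      rw [← Multiset.coe_toList G.roots, Multiset.map_coe, Multiset.prod_coe, ← hl]
    rw [h1]
    exact hsp.eq_prod_roots
  have hmem : ∀ i : Fin l.length, ‖l[i.1]‖ = 1 := by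
    intro i
    have h1 : l[i.1] ∈ l := List.getElem_mem i.2
    have h2 : ∀ x ∈ l, G.IsRoot x := by
      intro x hx
      rw [hl, Multiset.mem_toList, mem_roots hG0] at hx
      exact hx
    exact hroots _ (h2 _ h1)
  set ζ : Fin l.length → ℂ := fun i => l[i.1] with hζ
  -- the perturbation
  set P : ℝ → ℂ[X] := fun t => C a * ∏ i, (X - C (rot (ζ i) (i : ℕ) t)) with hP
  have hP0 : P 0 = G := by
    rw [hP]
    simp only [rot_zero]
    exact hprod.symm
  have hPc : ∀ j, Continuous (fun t => (P t).coeff j) := by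
    intro j
    simp only [hP, coeff_C_mul]
    exact continuous_const.mul (prod_coeff_cont _ _ (fun i => rot_cont _ _) j)
  have hPdeg : ∀ t, (P t).natDegree = n := by
    intro t
    simp only [hP]
    rw [natDegree_C_mul ha0, natDegree_finsetProd_X_sub_C_eq_card, Finset.card_univ,
      Fintype.card_fin, hlen]
  have hnc : Continuous (fun t => nrm n (P t)) := by
    unfold nrm
    apply continuous_finsetSum
    intro k _
    exact ((hPc k).norm).pow 2
  have hnpos : ∀ t, 0 < nrm n (P t) := by
    intro t
    unfold nrm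
    have h1 : (P t).coeff n ≠ 0 := by
      rw [← hPdeg t]
      apply leadingCoeff_ne_zero.2
      intro h
      have := hPdeg t
      rw [h, natDegree_zero] at this
      omega
    have h2 : 0 < ‖(P t).coeff n‖ ^ 2 := by
      have := norm_pos_iff.2 h1
      positivity
    have h3 : ‖(P t).coeff n‖ ^ 2 ≤ ∑ k ∈ Finset.range (n + 1), ‖(P t).coeff k‖ ^ 2 :=
      Finset.single_le_sum (f := fun k => ‖(P t).coeff k‖ ^ 2) (fun k _ => by positivity)
        (Finset.mem_range.2 (by omega))
    linarith
  set c : ℝ → ℝ := fun t => (Real.sqrt (nrm n (P t)))⁻¹ with hc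
  have hcc : Continuous c := by
    apply (Real.continuous_sqrt.comp hnc).inv₀
    intro t
    exact (Real.sqrt_pos.2 (hnpos t)).ne'
  have hcpos : ∀ t, 0 < c t := fun t => inv_pos.2 (Real.sqrt_pos.2 (hnpos t))
  set H : ℝ → ℂ[X] := fun t => C (c t : ℂ) * P t with hH
  have hHc : ∀ j, Continuous (fun t => (H t).coeff j) := by
    intro j
    simp only [hH, coeff_C_mul]
    exact (Complex.continuous_ofReal.comp hcc).mul (hPc j)
  have hH0 : H 0 = G := by
    rw [hH]
    simp only
    rw [hP0, hc]
    simp only
    rw [hP0, hnrm, Real.sqrt_one, inv_one]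
    simp
  have hHn : ∀ t, nrm n (H t) = 1 := by
    intro t
    rw [hH]
    simp only
    rw [nrm_C_mul, Complex.norm_real, Real.norm_eq_abs, sq_abs, hc]
    simp only
    rw [inv_pow, Real.sq_sqrt (hnpos t).le]
    exact inv_mul_cancel₀ (hnpos t).ne'
  have hHdeg : ∀ t, (H t).natDegree = n := by
    intro t
    rw [hH]
    simp only
    rw [natDegree_C_mul (by exact_mod_cast (hcpos t).ne'), hPdeg t]
  have hHs : ∀ᶠ t in 𝓝[≠] (0 : ℝ), Simple (H t) := by
    have h1 : ∀ᶠ t in 𝓝[≠] (0 : ℝ), ∀ i j : Fin l.length, i ≠ j →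
        rot (ζ i) (i : ℕ) t ≠ rot (ζ j) (j : ℕ) t := by
      rw [eventually_all]
      intro i
      rw [eventually_all]
      intro j
      by_cases hij : i = j
      · exact Eventually.of_forall (fun t h => absurd hij h)
      · have h2 : ζ j ≠ 0 := by
          intro h
          have := hmem j
          rw [hζ] at h
          simp only at h
          rw [h, norm_zero] at this
          exact zero_ne_one this
        have h3 : ((i : ℕ) : ℝ) ≠ ((j : ℕ) : ℝ) := by
          intro h
          apply hij
          apply Fin.ext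
          exact_mod_cast h
        filter_upwards [rot_ne (ζ := ζ i) h2 h3] with t ht _ using ht
    filter_upwards [h1] with t ht
    have h2 : H t = C ((c t : ℂ) * a) * ∏ i, (X - C (rot (ζ i) (i : ℕ) t)) := by
      rw [hH, hP]
      simp only
      rw [C_mul, mul_assoc]
    rw [h2]
    apply simple_prod
    · exact mul_ne_zero (by exact_mod_cast (hcpos t).ne') ha0
    · intro i
      rw [rot_norm]
      exact hmem i
    · intro i j hij
      by_contra h
      exact ht i j h hij
  have hineq : ∀ᶠ t in 𝓝[≠] (0 : ℝ), eps0 + 2 / (3 * n) * vv n (H t) ≤ ent (TP n (ac n (H t))) := by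
    filter_upwards [hHs] with t ht
    have h1 := hEN1 n (H t) hn (hHdeg t) ht (hHn t)
    have h2 : ent (sq (H t)) = ent (TP n (ac n (H t))) := by
      unfold ent
      apply av_congr
      intro z hz
      rw [t_AC n (H t) (hHdeg t).le z hz]
    rwa [h2] at h1
  have hvc : Continuous (fun t => eps0 + 2 / (3 * n) * vv n (H t)) := by
    unfold vv
    apply continuous_const.add
    apply continuous_const.mul
    apply continuous_finsetSum
    intro k _
    exact continuous_const.mul (((hHc k).norm).pow 2)
  have hac : Continuous (fun t => ac n (H t)) := by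
    apply continuous_pi
    intro k
    unfold ac
    apply continuous_finsetSum
    intro j _
    exact (hHc j).mul (Complex.continuous_conj.comp (hHc (j + k)))
  have hec : Continuous (fun t => ent (TP n (ac n (H t)))) := (ent_cont n).comp hac
  have h1 := le_of_tendsto_of_tendsto (hvc.continuousWithinAt (s := {0}ᶜ) (x := 0))
    (hec.continuousWithinAt (s := {0}ᶜ) (x := 0)) hineq
  simp only [hH0] at h1
  have h2 : ent (sq G) = ent (TP n (ac n G)) := by
    unfold ent
    apply av_congr
    intro z hz
    rw [t_AC n G hdeg.le z hz]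
  rw [h2]
  exact h1

end Pool.Agent.H33.NP
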