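import Mathlib
import Pool.Agent.H82.NP.Targets
import Pool.Agent.H33.NP.Entc
import Pool.Agent.H92.NP.Pars

/-!
Module EN1 of the near-one theorem (`MP_ff17e6_an`): the entropy inequality for simple roots.
-/

set_option autoImplicit false

open Metric Set Filter Topology Polynomial

namespace Pool.Agent.H33.NP

open Pool.Agent.H82.Hp (co Np Fext)
open Pool.Agent.H82.NP
open Pool.Agent.H92.NP (t_PARS avc_re dcc_of cont_sphere ci_of)

lemma pA_add_pB (n : ℕ) (G : ℂ[X]) (z : ℂ) : (pA n G).eval z + (pB n G).eval z = G.eval z := by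
  unfold pB
  rw [eval_sub]
  ring

lemma pA_zero (n : ℕ) (G : ℂ[X]) : (pA n G).eval 0 = 0 := by
  unfold pA
  simp

lemma sq_cont (G : ℂ[X]) : Continuous (Pool.Agent.H82.NP.sq G) := by
  unfold Pool.Agent.H82.NP.sq
  exact (G.continuous.norm).pow 2

theorem t_EN1 (hAB : T_AB) (hUB : T_UB) (hSER : T_SER) : T_EN1 := by
  intro n G hn hdeg hsim hnrm
  obtain ⟨⟨R, hR, hB⟩, hab⟩ := hAB n G hn hdeg hsim
  obtain ⟨hu0, hu1, huk, hu2⟩ := hUB n G hn hdeg hsim hnrm
  set b : ℂ → ℂ := fun z => (pA n G).eval z / (pB n G).eval z with hb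
  set D : ℂ → ℝ := fun z => ‖(pB n G).eval z‖ ^ 2 with hD
  have hG0 : G ≠ 0 := by
    intro h
    rw [h, natDegree_zero] at hdeg
    omega
  have hball : ∀ z : ℂ, ‖z‖ = 1 → z ∈ ball (0 : ℂ) R := by
    intro z hz
    rw [mem_ball_zero_iff, hz]
    exact hR
  have hBne : ∀ z : ℂ, ‖z‖ = 1 → (pB n G).eval z ≠ 0 := fun z hz => hB z (hball z hz)
  have hbd : DifferentiableOn ℂ b (ball 0 R) :=
    (pA n G).differentiable.differentiableOn.div (pB n G).differentiable.differentiableOn hB
  have hbdcc := dcc_of hR hbd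
  have hbc : ContinuousOn b (sphere 0 1) := cont_sphere hbdcc
  have hDc : Continuous D := ((pB n G).continuous.norm).pow 2
  have hb1 : ∀ z : ℂ, ‖z‖ = 1 → ‖b z‖ = 1 := by
    intro z hz
    rw [hb]
    simp only
    rw [norm_div, hab z hz, div_self (norm_ne_zero_iff.2 (hBne z hz))]
  have hGe : ∀ z : ℂ, ‖z‖ = 1 → sq G z = D z * ‖1 + b z‖ ^ 2 := by
    intro z hz
    have h1 : (pB n G).eval z * (1 + b z) = G.eval z := by
      rw [← pA_add_pB n G z, hb]
      have := hBne z hz
      field_simp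
      ring
    rw [Pool.Agent.H82.NP.sq, ← h1, norm_mul, mul_pow]
  -- the series inequality
  have hser := hSER D b hDc.continuousOn hbc (fun z _ => by positivity) hb1 (1 / 2 - vv n G)
    (vv n G) (1 - 1 / n) (by
      rw [← hu0]
      unfold ub
      simp [hD])
    (by
      rw [← hu1]
      unfold ub
      simp [hD, hb])
    (fun k hk => huk k hk) hu2
  -- the weight
  set w : ℂ → ℝ := fun z => ‖1 + b z‖ ^ 2 / 2 with hw
  have hwc : ContinuousOn w (sphere 0 1) :=
    ((continuousOn_const.add hbc).norm.pow 2).div_const 2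
  have hwre : ∀ z : ℂ, ‖z‖ = 1 → w z = 1 + (b z).re := by
    intro z hz
    have h1 := hb1 z hz
    have h2 : ‖b z‖ ^ 2 = 1 := by rw [h1]; norm_num
    rw [hw]
    simp only
    rw [Complex.sq_norm, Complex.normSq_apply] at h2 ⊢
    simp only [Complex.add_re, Complex.one_re, Complex.add_im, Complex.one_im, zero_add]
    nlinarith
  have hbint : CircleIntegrable b 0 1 := ci_of hbc
  have havw : av w = 1 := by
    have hi0 : CircleIntegrable (fun z => (b z).re) 0 1 :=
      circleInt_of_cont (Complex.continuous_re.comp_continuousOn hbc)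
    have hi1 : CircleIntegrable (fun _ : ℂ => (1 : ℝ)) 0 1 := circleInt_of_cont continuousOn_const
    rw [av_congr hwre, av_add hi1 hi0, av_const, ← avc_re hbint]
    have h1 : avc b = b 0 := by
      have h2 : DiffContOnCl ℂ b (ball 0 |1|) := by rw [abs_one]; exact hbdcc
      exact DiffContOnCl.circleAverage h2
    rw [h1, hb]
    simp [pA_zero]
  have hTc : ContinuousOn (sq G) (sphere 0 1) := (sq_cont G).continuousOn
  have hlogw : ∀ z : ℂ, ‖z‖ = 1 → sq G z * Real.log (w z) = 2 * D z * (w z * Real.log (w z)) := by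
    intro z hz
    rw [hGe z hz, hw]
    ring
  have hint : CircleIntegrable (fun z => sq G z * Real.log (w z)) 0 1 := by
    have h1 : ContinuousOn (fun z => 2 * D z * (w z * Real.log (w z))) (sphere 0 1) :=
      ((continuous_const.mul hDc).continuousOn).mul (cont_mul_log hwc)
    apply circleInt_of_cont
    apply h1.congr
    intro z hz
    have hz1 : ‖z‖ = 1 := by simpa using hz
    exact hlogw z hz1
  have havT : av (sq G) = 1 := by rw [t_PARS n G hdeg.le, hnrm]
  have hfin : {z : ℂ | ‖z‖ = 1 ∧ w z = 0}.Finite := by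
    apply (G.roots.toFinset.finite_toSet).subset
    rintro z ⟨hz, hwz⟩
    have h1 : sq G z = 0 := by
      rw [hGe z hz]
      have : ‖1 + b z‖ ^ 2 = 0 := by
        rw [hw] at hwz
        simp only at hwz
        linarith
      rw [this, mul_zero]
    have h2 : G.eval z = 0 := by
      rw [Pool.Agent.H82.NP.sq] at h1
      exact norm_eq_zero.1 (pow_eq_zero_iff two_ne_zero |>.1 h1)
    simp only [Finset.mem_coe, Multiset.mem_toFinset]
    rw [mem_roots hG0]
    exact h2
  have hG := t_GIBBS (sq G) w hTc hwc (fun z _ => by unfold Pool.Agent.H82.NP.sq; positivity)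
    (fun z _ => by rw [hw]; positivity) hfin hint havT (by rw [havw]; exact one_pos)
  rw [havw, Real.log_one, add_zero] at hG
  -- comparison
  have hpt : ∀ z : ℂ, ‖z‖ = 1 → sq G z * Real.log (w z)
      = D z * ‖1 + b z‖ ^ 2 * Real.log (‖1 + b z‖ ^ 2) - Real.log 2 * sq G z := by
    intro z hz
    by_cases h0 : ‖1 + b z‖ ^ 2 = 0
    · rw [hGe z hz, h0]
      simp
    · rw [hGe z hz, hw]
      simp only
      rw [Real.log_div h0 (by norm_num)]
      ring
  have hi1 : CircleIntegrable (fun z => D z * ‖1 + b z‖ ^ 2 * Real.log (‖1 + b z‖ ^ 2)) 0 1 := by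
    apply circleInt_of_cont
    have h1 : ContinuousOn (fun z => ‖1 + b z‖ ^ 2) (sphere 0 1) :=
      (continuousOn_const.add hbc).norm.pow 2
    have h2 : ContinuousOn (fun z => D z * (‖1 + b z‖ ^ 2 * Real.log (‖1 + b z‖ ^ 2)))
        (sphere 0 1) := hDc.continuousOn.mul (cont_mul_log h1)
    refine h2.congr ?_
    intro z _
    show _ = _
    ring
  have hi2 : CircleIntegrable (fun z => Real.log 2 * sq G z) 0 1 :=
    circleInt_of_cont (continuousOn_const.mul hTc)
  rw [av_congr hpt, av_sub hi1 hi2, av_smul, havT] at hG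
  unfold eps0
  have hn0 : (n : ℝ) ≠ 0 := by
    have : n ≠ 0 := by omega
    exact_mod_cast this
  have h3 : 2 / (3 * (n : ℝ)) * vv n G = 2 / 3 * (1 - (1 - 1 / (n : ℝ))) * vv n G := by
    field_simp
    ring
  rw [h3]
  linarith

end Pool.Agent.H33.NP
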