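import Mathlib
import Pool.Agent.H82.NP.Targets
import Pool.Agent.H33.NP.Entc
import Pool.Agent.H33.NP.EA1
import Pool.Agent.H92.NP.Pars

/-!
Module ENV of the near-one theorem (`MP_ff17e6_an`): the envelope inequality.
-/

set_option autoImplicit false

open Metric Set Filter Topology Polynomial

namespace Pool.Agent.H33.NP

open Pool.Agent.H82.Hp (co Np Fext)
open Pool.Agent.H82.NP
open Pool.Agent.H92.NP (t_PARS)
open Pool.Agent.H62.NP (t_LAV TP_cont)

lemma log_sq_int (G : ℂ[X]) : CircleIntegrable (fun z => Real.log (sq G z)) 0 1 := by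
  have h1 : MeromorphicOn (fun z => G.eval z) (sphere 0 |(1 : ℝ)|) := fun z _ =>
    (G.differentiable.analyticAt z).meromorphicAt
  have h2 := h1.circleIntegrable_log_norm
  have h3 : CircleIntegrable (fun z => (2 : ℝ) * Real.log ‖G.eval z‖) 0 1 :=
    CircleIntegrable.continuousOn_mul (g := fun _ => (2 : ℝ)) h2 continuousOn_const
  have h4 : (fun z => Real.log (sq G z)) = fun z => (2 : ℝ) * Real.log ‖G.eval z‖ := by
    ext z
    unfold Pool.Agent.H82.NP.sq
    rw [Real.log_pow]
    norm_num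
  rw [h4]
  exact h3

lemma TP_log_int (n : ℕ) (τ : ℕ → ℂ) (G : ℂ[X]) :
    CircleIntegrable (fun z => TP n τ z * Real.log (sq G z)) 0 1 :=
  CircleIntegrable.continuousOn_mul (g := TP n τ) (log_sq_int G) (TP_cont n τ).continuousOn

lemma sq_cont' (G : ℂ[X]) : Continuous (sq G) := by
  unfold Pool.Agent.H82.NP.sq
  exact (G.continuous.norm).pow 2

lemma sq_nonneg' (G : ℂ[X]) (z : ℂ) : 0 ≤ sq G z := by
  unfold Pool.Agent.H82.NP.sq
  positivity

lemma rpow_sq_cont (G : ℂ[X]) {a : ℝ} (ha : 0 ≤ a) : Continuous (fun z => sq G z ^ a) :=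
  (sq_cont' G).rpow_const (fun _ => Or.inr ha)

lemma log_rpow' {x : ℝ} (hx : 0 ≤ x) {a : ℝ} (ha : 0 < a) : Real.log (x ^ a) = a * Real.log x := by
  rcases hx.eq_or_lt with h | h
  · rw [← h, Real.zero_rpow ha.ne', Real.log_zero, mul_zero]
  · exact Real.log_rpow h a

lemma nrm_pos {n : ℕ} {G : ℂ[X]} (h : G.eval 0 ≠ 0) : 0 < nrm n G := by
  have h1 : 0 < ‖G.coeff 0‖ ^ 2 := by
    rw [coeff_zero_eq_eval_zero]
    have := norm_pos_iff.2 h
    positivity
  have h3 : ‖G.coeff 0‖ ^ 2 ≤ ∑ k ∈ Finset.range (n + 1), ‖G.coeff k‖ ^ 2 :=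
    Finset.single_le_sum (f := fun k => ‖G.coeff k‖ ^ 2) (fun k _ => by positivity)
      (Finset.mem_range.2 (by omega))
  unfold nrm
  linarith

/-- the average of a power is positive -/
lemma av_rpow_pos {n : ℕ} {G : ℂ[X]} (hd : G.natDegree ≤ n) (h : G.eval 0 ≠ 0) {a : ℝ} (ha : 0 < a)
    (ha1 : a ≤ 1) : 0 < av (fun z => sq G z ^ a) := by
  obtain ⟨M, hM⟩ := (isCompact_sphere (0 : ℂ) 1).exists_bound_of_continuousOn
    (sq_cont' G).continuousOn
  set M' := max M 1 with hM'
  have hM'pos : 0 < M' := lt_of_lt_of_le one_pos (le_max_right _ _)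
  have h1 : av (sq G) ≤ av (fun z => M' ^ (1 - a) * sq G z ^ a) := by
    apply av_mono
    · exact circleInt_of_cont (sq_cont' G).continuousOn
    · exact circleInt_of_cont (continuous_const.mul (rpow_sq_cont G ha.le)).continuousOn
    · intro z hz
      have h2 := hM z (by simpa using hz)
      rw [Real.norm_eq_abs, abs_of_nonneg (sq_nonneg' G z)] at h2
      have h3 : sq G z ≤ M' := h2.trans (le_max_left _ _)
      have h4 : sq G z = sq G z ^ (1 - a) * sq G z ^ a := by
        rw [← Real.rpow_add_of_nonneg (sq_nonneg' G z) (by linarith) ha.le]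
        simp
      calc sq G z = sq G z ^ (1 - a) * sq G z ^ a := h4
        _ ≤ M' ^ (1 - a) * sq G z ^ a := by
          apply mul_le_mul_of_nonneg_right _ (Real.rpow_nonneg (sq_nonneg' G z) _)
          exact Real.rpow_le_rpow (sq_nonneg' G z) h3 (by linarith)
  rw [av_smul, t_PARS n G hd] at h1
  have h2 := nrm_pos (n := n) h
  have h3 : 0 < M' ^ (1 - a) := Real.rpow_pos_of_pos hM'pos _
  by_contra hc
  push Not at hc
  have := mul_nonpos_of_nonneg_of_nonpos h3.le hc
  linarith

/-- the pairing of a KKT point -/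
lemma L_kkt {n : ℕ} {s : ℝ} {c : ℕ → ℂ} {G : ℂ[X]} {lam : ℕ → ℂ} {m : ℕ} {r : Fin m → ℝ}
    {ζ : Fin m → ℂ} (h : KKT n s c G lam m r ζ) {τ : ℕ → ℂ} (hτ : τ 0 = 1) :
    L n c τ = s * L n lam τ - ∑ i, r i * TP n τ (ζ i) := by
  have h1 : ∀ (d : ℕ → ℂ), L n d τ = (d 0).re + ∑ k ∈ Finset.range n, (d (k + 1) * τ (k + 1)).re := by
    intro d
    unfold L
    rw [Finset.sum_range_succ', Complex.add_re, hτ, mul_one, Complex.re_sum, add_comm]
  have h2 : ∀ z, TP n τ z = 1 + 2 * ∑ k ∈ Finset.range n,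
      (τ (k + 1) * (starRingEnd ℂ) z ^ (k + 1)).re := by
    intro z
    unfold TP
    rw [hτ, Complex.one_re]
    congr 2
    have h3 : Finset.Icc 1 n = Finset.Ico (0 + 1) (n + 1) := by
      ext a; simp only [Finset.mem_Icc, Finset.mem_Ico]; omega
    rw [h3, ← Finset.sum_Ico_add', ← Finset.range_eq_Ico]
    apply Finset.sum_congr rfl
    intro k _
    rw [← Complex.conj_re]
    simp
  rw [h1, h1, h.c0]
  have h4 : ∀ k ∈ Finset.range n, (c (k + 1) * τ (k + 1)).re = s * (lam (k + 1) * τ (k + 1)).re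
      - 2 * ∑ i, r i * (τ (k + 1) * (starRingEnd ℂ) (ζ i) ^ (k + 1)).re := by
    intro k hk
    rw [Finset.mem_range] at hk
    rw [h.ck (k + 1) (by omega) (by omega)]
    have h5 : (s * lam (k + 1) - 2 * ∑ i, (r i : ℂ) * (starRingEnd ℂ) (ζ i) ^ (k + 1)) * τ (k + 1)
        = (s : ℂ) * (lam (k + 1) * τ (k + 1))
          - ((2 : ℝ) : ℂ) * ∑ i, (r i : ℂ) * (τ (k + 1) * (starRingEnd ℂ) (ζ i) ^ (k + 1)) := by
      rw [sub_mul, Finset.mul_sum, Finset.sum_mul, Finset.mul_sum]
      push_cast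
      congr 1
      · ring
      · apply Finset.sum_congr rfl
        intro i _
        ring
    rw [h5, Complex.sub_re, Complex.re_ofReal_mul, Complex.re_ofReal_mul, Complex.re_sum]
    congr 2
    apply Finset.sum_congr rfl
    intro i _
    rw [Complex.re_ofReal_mul]
  rw [Finset.sum_congr rfl h4, Finset.sum_sub_distrib, ← Finset.mul_sum, ← Finset.mul_sum,
    Finset.sum_comm]
  have h6 : ∑ i, r i * TP n τ (ζ i) = ∑ i, r i + 2 * ∑ i, ∑ k ∈ Finset.range n,
      r i * (τ (k + 1) * (starRingEnd ℂ) (ζ i) ^ (k + 1)).re := by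
    rw [Finset.mul_sum, ← Finset.sum_add_distrib]
    apply Finset.sum_congr rfl
    intro i _
    rw [h2, ← Finset.mul_sum]
    ring
  rw [h6]
  ring

theorem t_ENV : T_ENV := by
  intro n s s' c c' G lam m r ζ hn hs hss hs' hmax hkkt hmax'
  have hs'0 : 0 < s' := by linarith
  set a := s / s' with ha
  have ha0 : 0 < a := div_pos hs hs'0
  have ha1 : a ≤ 1 := by rw [ha, div_le_one hs'0]; exact hss.le
  have hG0 : G.eval 0 ≠ 0 := hkkt.zf 0 (by simp)
  have hGne : G ≠ 0 := by
    intro h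
    rw [h] at hG0
    simp at hG0
  set W := av (fun z => sq G z ^ a) with hW
  have hWpos : 0 < W := av_rpow_pos hkkt.deg hG0 ha0 ha1
  set κ : ℝ := -s' * Real.log W with hκ
  have hmem : (fun k => if k = 0 then c 0 + (κ : ℂ) else c k) ∈ CC n s' := by
    intro τ hτ
    have h1 : L n (fun k => if k = 0 then c 0 + (κ : ℂ) else c k) τ = L n c τ + κ := by
      unfold L
      rw [Finset.sum_range_succ', Finset.sum_range_succ']
      simp only [Nat.add_eq_zero_iff, one_ne_zero, and_false, if_false, if_true, hτ.1]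
      simp only [mul_one, Complex.add_re, Complex.ofReal_re]
      ring
    rw [h1, L_kkt hkkt hτ.1]
    have h2 : 0 ≤ ∑ i, r i * TP n τ (ζ i) :=
      Finset.sum_nonneg (fun i _ => mul_nonneg (hkkt.rpos i).le (hτ.2 _ (hkkt.circ i)))
    have h3 : s * L n lam τ = s' * av (fun z => TP n τ z * Real.log (sq G z ^ a)) := by
      rw [← hkkt.log.mom n τ (by rw [hτ.1]; simp)]
      have h4 : (fun z => TP n τ z * Real.log (sq G z ^ a))
          = fun z => a * (TP n τ z * Real.log (sq G z)) := by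
        ext z
        rw [log_rpow' (sq_nonneg' G z) ha0]
        ring
      rw [h4, av_smul, ha]
      field_simp
    have h5 : av (fun z => TP n τ z * Real.log (sq G z ^ a)) ≤ ent (TP n τ) + Real.log W := by
      apply t_GIBBS (TP n τ) (fun z => sq G z ^ a) (TP_cont n τ).continuousOn
        (rpow_sq_cont G ha0.le).continuousOn hτ.2 (fun z _ => Real.rpow_nonneg (sq_nonneg' G z) _)
      · apply (G.roots.toFinset.finite_toSet).subset
        rintro z ⟨_, hz⟩
        rw [Real.rpow_eq_zero (sq_nonneg' G z) ha0.ne'] at hz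
        simp only [Finset.mem_coe, Multiset.mem_toFinset]
        rw [mem_roots hGne]
        unfold Pool.Agent.H82.NP.sq at hz
        exact norm_eq_zero.1 (pow_eq_zero_iff two_ne_zero |>.1 hz)
      · have h4 : (fun z => TP n τ z * Real.log (sq G z ^ a))
            = fun z => a * (TP n τ z * Real.log (sq G z)) := by
          ext z
          rw [log_rpow' (sq_nonneg' G z) ha0]
          ring
        show CircleIntegrable (fun z => TP n τ z * Real.log (sq G z ^ a)) 0 1
        rw [h4]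
        exact CircleIntegrable.continuousOn_mul (g := fun _ => a) (TP_log_int n τ G)
          continuousOn_const
      · exact av_TP_one hτ
      · exact hWpos
    have h6 := mul_le_mul_of_nonneg_left h5 hs'0.le
    rw [h3, hκ]
    linarith
  have h1 := hmax'.max _ hmem
  rw [t_EA5, norm_mul, Complex.norm_exp, Complex.ofReal_re] at h1
  rw [mul_comm]
  exact h1

end Pool.Agent.H33.NP
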